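import Pool.Agent.Helper97.CB.All

/-!
# Covering density of a convex body contained in a small parallelogram

Let `K` be a planar convex body with area `|K|`, and `θ(K)` its covering density (congruent copies).
The conjecture is `θ(K) ≤ 2π/√27 = 1.2091..` for all `K`; the best bound known for all `K` is
`1.2281772` (Ismailescu 1998).

THEOREM. If `K` is contained in a parallelogram of area at most `1.106 |K|`, then `θ(K) ≤ 2π/√27`; if it
is contained in a parallelogram of area at most `1.157 |K|`, then `θ(K) ≤ 1.22817`.

Proof. In the direction of one side of the parallelogram let `c` be the longest chord of `K`, `W` the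
width and `D(s)` the distance of the two extreme chords of length `s`; `c W` is at most the area of the
parallelogram. The hexagons of `K` built from the two extreme chords of length `s` and, respectively, the
lowest and highest point or a longest chord have a pair of parallel equal sides and the areas
`s (W + D(s)) / 2`, `D(s) (s + c) / 2`; the plane is covered by two families of translates of them. `D` is
concave with integral `|K|`; Jensen's inequality with the values of `D` at two points shows that one of
these hexagons has area at least `3√3/(2π) |K|` if `c W ≤ 1.106 |K|`.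
-/

set_option autoImplicit false

open MeasureTheory Set Filter

namespace Helper97.CB.Old.ParallelogramCriterion

open Helper97.CB

theorem result (K : Set ℂ) (hK : IsBody K) (p u v : ℂ)
    (hp : ∀ z ∈ K, ∃ s ∈ Icc (0 : ℝ) 1, ∃ t ∈ Icc (0 : ℝ) 1, z = p + (s : ℂ) * u + (t : ℂ) * v) :
    (|cr u v| ≤ (1106 / 1000 : ℝ) * area K →
      theta K ≤ ENNReal.ofReal (2 * Real.pi / Real.sqrt 27)) ∧
    (|cr u v| ≤ (1157 / 1000 : ℝ) * area K →
      theta K ≤ ENNReal.ofReal (122817 / 100000)) :=
  ⟨fun h => fi1_conj K hK (Or.inr ⟨p, u, v, hp, h⟩),
    fun h => fi1_rec K hK (Or.inr ⟨p, u, v, hp, h⟩)⟩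

end Helper97.CB.Old.ParallelogramCriterion
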